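import Pool.Agent.H.MP_aeb38e_lc.Main2

/-!
Under the gap exponential time hypothesis, for each fixed ratio below an absolute constant larger
than one, the exponent of `n` in the running time of any algorithm approximating the job shop
problem with `m` machines within this ratio is at least linear in `m`, even for unit processing
times and at most `m - 1` jobs.
-/

namespace Pool.Agent.Results.MP_aeb38e_lc.FixedRatio

open Turing Pool.Agent.H.JS

/-- Assume the gap exponential time hypothesis. There are `e₀ > 0` and `b` such that for all `c`,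
`m` and `e` with `b (c + 1) ≤ m` and `e₀ ≤ e`, no algorithm with running time `O(n ^ c)` finds, for
the instances with `m` machines, at most `m - 1` jobs and unit processing times, a schedule of
makespan at most `(1 + 1 / e) OPT`, or separates `OPT ≤ K` from `OPT > (1 + 1 / e) K`. In
particular, for each fixed `e ≥ e₀`, no algorithm finds such a schedule for all `m` in time
`f(m) p(n)`, for whatever function `f` and polynomial `p`. -/
theorem result (h : GapETH) : ∃ e₀ b, 0 < e₀ ∧
    (∀ c m e, b * (c + 1) ≤ m → e₀ ≤ e → ∀ (tm : FinTM2) (iA : tm.Γ tm.k₀ ≃ Bool)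
      (oA : tm.Γ tm.k₁ ≃ Bool) (C : ℕ), ¬ IsScheme m e (fun n => C * (n ^ c + 1)) tm iA oA ∧
        ¬ IsGapTest m e (fun n => C * (n ^ c + 1)) tm iA oA) ∧
    (∀ e, e₀ ≤ e → ∀ (f : ℕ → ℕ) (p : Polynomial ℕ), ¬ ∃ (tm : FinTM2)
      (iA : tm.Γ tm.k₀ ≃ Bool) (oA : tm.Γ tm.k₁ ≃ Bool), ∀ m,
        IsScheme m e (fun n => f m * p.eval n) tm iA oA) :=
  main2 h

end Pool.Agent.Results.MP_aeb38e_lc.FixedRatio
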