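import Pool.Agent.H.MP_aeb38e_lc.SK.Main

/-!
Short jobs: one polynomial-time algorithm finds, for all job shop instances, a schedule of makespan
at most `(1 + 7 / (8 e)) (C + 4 e ^ 2 n p ln m)`, where `C` is the largest load of a machine, `m`
the number of machines, `n` the largest number of operations of a job and `p` the largest
processing time. It is a `(1 + 1 / e)`-approximation as soon as `60 e ^ 3 n p ln m ≤ C`.
-/

namespace Pool.Agent.Results.MP_aeb38e_lc.ShortJobsLog

open Turing Pool.Agent.H.JS

/-- There are a machine and a polynomial `P` such that, for all `e > 0` and all instances `I` in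
which each job has at most `n` operations and all processing times are at most `p`, the machine
outputs, within `P(length of the input)` steps, a feasible schedule whose makespan `K` satisfies
`8 e K ≤ (8 e + 7) (C + 4 e ^ 2 n p ln m)`, where `m` is the number of machines and `C ≤ OPT` is
the largest load of a machine. In particular `e K ≤ (e + 1) OPT` whenever
`60 e ^ 3 n p ln m ≤ C`. -/
theorem result : ∃ (tm : FinTM2) (iA : tm.Γ tm.k₀ ≃ Bool) (oA : tm.Γ tm.k₁ ≃ Bool)
    (P : Polynomial ℕ), ∀ (e : ℕ) (I : Shop) (n p : ℕ), 0 < e →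
      (∀ j i u q, IsOp I j i u q → u < I.1 ∧ q ≤ p) → (∀ job ∈ I.2, job.length ≤ n) →
      ∃ (s : List (List (List Bool))) (K : ℕ),
        Outputs tm iA oA (codePair codeShop codeNat (I, e)) (codeSched s)
          (P.eval (codePair codeShop codeNat (I, e)).length) ∧
        Feasible I (startOf s) ∧ EndsBy I (startOf s) K ∧
        8 * (e : ℝ) * K ≤ (8 * e + 7) * (maxLoad I + 4 * (e : ℝ) ^ 2 * (n * p) * Real.log I.1) ∧
        maxLoad I ≤ OPT I ∧
        (60 * (e : ℝ) ^ 3 * (n * p) * Real.log I.1 ≤ maxLoad I → e * K ≤ (e + 1) * OPT I) :=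
  main_log

end Pool.Agent.Results.MP_aeb38e_lc.ShortJobsLog
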