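import Pool.Agent.H.MP_aeb38e_lc.ST.Main

/-!
For general processing times the trivial bound `OPT ≤ m C`, where `C` is the largest load of a
machine, is best possible, even if all jobs are arbitrarily short compared with `C`.
-/

namespace Pool.Agent.Results.MP_aeb38e_lc.ShortJobsTight

open Pool.Agent.H.JS

/-- For all `m`, `e`, `k ≥ 1` there is a job shop with `m` machines and `k` jobs in which each job
runs cyclically through the machines `0, ..., m - 1` with positive processing times, each machine
has the same load `C > 0`, each job has total processing time `m C / k`, and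
`OPT ≥ (m - 1 / e) C`. -/
theorem result (m e k : ℕ) (hm : 0 < m) (he : 0 < e) (hk : 0 < k) :
    ∃ (I : Shop) (C : ℕ), I.1 = m ∧ I.2.length = k ∧ 0 < C ∧
      (∀ j i u p, IsOp I j i u p → u = i % m ∧ 0 < p) ∧ (∀ u < m, load I u = C) ∧
      (∀ job ∈ I.2, k * (job.map Prod.snd).sum = m * C) ∧
      m * e * C ≤ e * OPT I + C :=
  main_gap m e k hm he hk

end Pool.Agent.Results.MP_aeb38e_lc.ShortJobsTight
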