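import Pool.Agent.H.MP_aeb38e_lc.TW.MainT

/-!
Under the gap exponential time hypothesis, for each fixed ratio below an absolute constant larger
than one, the exponent of `n` in the running time of any algorithm approximating the job shop
problem with two machines and at most `k` jobs within this ratio is at least linear in `k`.
-/

namespace Pool.Agent.Results.MP_aeb38e_lc.TwoMachines

open Turing Pool.Agent.H.JS

/-- Assume the gap exponential time hypothesis. There are `e₀ > 0`, `b` and `P : ℕ → ℕ` such that
for all `c`, `k` and `e` with `b (c + 1) ≤ k` and `e₀ ≤ e`, no algorithm with running time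
`O(n ^ c)` finds, for the instances with two machines and at most `k` jobs in which consecutive
operations of a job run on different machines and the processing times are between `1` and `P k`,
a schedule of makespan at most `(1 + 1 / e) OPT`, or separates `OPT ≤ K` from
`OPT > (1 + 1 / e) K`. In particular, for each fixed `e ≥ e₀`, no algorithm finds such a schedule
for all `k` in time `f(k) p(n)`, for whatever function `f` and polynomial `p`. -/
theorem result (h : GapETH) : ∃ (e₀ b : ℕ) (P : ℕ → ℕ), 0 < e₀ ∧
    (∀ c k e, b * (c + 1) ≤ k → e₀ ≤ e → ∀ (tm : FinTM2) (iA : tm.Γ tm.k₀ ≃ Bool)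
      (oA : tm.Γ tm.k₁ ≃ Bool) (C : ℕ),
        ¬ IsSchemeTwo k (P k) e (fun n => C * (n ^ c + 1)) tm iA oA ∧
        ¬ IsGapTestTwo k (P k) e (fun n => C * (n ^ c + 1)) tm iA oA) ∧
    (∀ e, e₀ ≤ e → ∀ (f : ℕ → ℕ) (p : Polynomial ℕ), ¬ ∃ (tm : FinTM2)
      (iA : tm.Γ tm.k₀ ≃ Bool) (oA : tm.Γ tm.k₁ ≃ Bool), ∀ k,
        IsSchemeTwo k (P k) e (fun n => f k * p.eval n) tm iA oA) :=
  mainT h

end Pool.Agent.Results.MP_aeb38e_lc.TwoMachines
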